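import Pool.Agent.Y163.MW.Base

/-!
# Project MW: existence of a basis of homogeneous strings
-/

set_option autoImplicit false

open Module

namespace Pool.Agent.Y153.MW

open Pool.Agent.Y163.MW

universe u v

section

variable {K : Type u} [Field K] {V : Type v} [AddCommGroup V] [Module K V]

/-- The projections of a graded space. -/
structure Proj (gr : ℤ → Submodule K V) (π : ℤ → Module.End K V) : Prop where
  mem : ∀ s u, π s u ∈ gr s
  same : ∀ s u, u ∈ gr s → π s u = u
  ne : ∀ s t u, u ∈ gr s → t ≠ s → π t u = 0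
  sum : ∀ u, ∃ T : Finset ℤ, u = ∑ s ∈ T, π s u ∧ ∀ s, s ∉ T → π s u = 0

lemma exists_proj (gr : ℤ → Submodule K V) (h : DirectSum.IsInternal gr) :
    ∃ π : ℤ → Module.End K V, Proj gr π := by
  classical
  let _ := h.chooseDecomposition
  refine ⟨fun s => (gr s).subtype ∘ₗ (DirectSum.component K ℤ (fun i => gr i) s) ∘ₗ
    (DirectSum.decomposeLinearEquiv gr).toLinearMap, ?_, ?_, ?_, ?_⟩
  · intro s u
    exact Submodule.coe_mem _
  · intro s u hu
    show ((DirectSum.decompose gr u) s : V) = u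
    exact DirectSum.decompose_of_mem_same gr hu
  · intro s t u hu hts
    show ((DirectSum.decompose gr u) t : V) = 0
    exact DirectSum.decompose_of_mem_ne gr hu (Ne.symm hts)
  · intro u
    refine ⟨(DirectSum.decompose gr u).support, ?_, ?_⟩
    · exact (DirectSum.sum_support_decompose gr u).symm
    · intro s hs
      show ((DirectSum.decompose gr u) s : V) = 0
      rw [DFinsupp.notMem_support_iff.mp hs]
      rfl

variable {gr : ℤ → Submodule K V} {π : ℤ → Module.End K V} {N : Module.End K V}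

lemma Proj.comm (hπ : Proj gr π) (hN : ∀ r, ∀ x ∈ gr r, N x ∈ gr (r - 2)) (s : ℤ) (u : V) :
    N (π s u) = π (s - 2) (N u) := by
  obtain ⟨T, hT, hT0⟩ := hπ.sum u
  have h1 : N u = ∑ t ∈ T, N (π t u) := by
    conv_lhs => rw [hT]
    rw [map_sum]
  rw [h1, map_sum]
  by_cases hs : s ∈ T
  · rw [Finset.sum_eq_single s]
    · rw [hπ.same _ _ (hN _ _ (hπ.mem s u))]
    · intro t _ hts
      exact hπ.ne (t - 2) (s - 2) _ (hN _ _ (hπ.mem t u)) (by omega)
    · intro h
      exact absurd hs h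
  · rw [hT0 s hs, map_zero, Finset.sum_eq_zero]
    intro t ht
    refine hπ.ne (t - 2) (s - 2) _ (hN _ _ (hπ.mem t u)) ?_
    intro h
    apply hs
    have : s = t := by omega
    rwa [this]

lemma Proj.comm_pow (hπ : Proj gr π) (hN : ∀ r, ∀ x ∈ gr r, N x ∈ gr (r - 2)) (s : ℤ) (i : ℕ)
    (u : V) : (N ^ i) (π s u) = π (s - 2 * i) ((N ^ i) u) := by
  induction i with
  | zero => simp
  | succ i ih =>
    rw [pow_succ', Module.End.mul_apply, Module.End.mul_apply, ih, hπ.comm hN]
    congr 1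
    push_cast
    ring_nf

lemma pow_mem (hN : ∀ r, ∀ x ∈ gr r, N x ∈ gr (r - 2)) (s : ℤ) (i : ℕ) (u : V) (hu : u ∈ gr s) :
    (N ^ i) u ∈ gr (s - 2 * i) := by
  induction i with
  | zero => simpa using hu
  | succ i ih =>
    rw [pow_succ', Module.End.mul_apply]
    have := hN _ _ ih
    rwa [show s - 2 * (i : ℤ) - 2 = s - 2 * ((i + 1 : ℕ) : ℤ) by push_cast; ring] at this

lemma exists_nilp [Module.Finite K V] (h : DirectSum.IsInternal gr) (hπ : Proj gr π)
    (hN : ∀ r, ∀ x ∈ gr r, N x ∈ gr (r - 2)) : ∃ k : ℕ, ∀ u, (N ^ k) u = 0 := by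
  have hfin : {i | gr i ≠ ⊥}.Finite :=
    WellFoundedGT.finite_ne_bot_of_iSupIndep h.submodule_iSupIndep
  obtain ⟨B, hB⟩ := (hfin.image Int.natAbs).bddAbove
  have hB' : ∀ i : ℤ, B < i.natAbs → gr i = ⊥ := by
    intro i hi
    by_contra hne
    have := hB ⟨i, hne, rfl⟩
    omega
  have key : ∀ s x, x ∈ gr s → (N ^ (B + 1)) x = 0 := by
    intro s x hx
    by_cases hs : B < s.natAbs
    · rw [hB' s hs, Submodule.mem_bot] at hx
      rw [hx, map_zero]
    · have h1 := pow_mem hN s (B + 1) x hx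
      rw [hB' _ (by omega), Submodule.mem_bot] at h1
      exact h1
  refine ⟨B + 1, fun u => ?_⟩
  obtain ⟨T, hT, -⟩ := hπ.sum u
  rw [hT, map_sum]
  exact Finset.sum_eq_zero fun s _ => key s _ (hπ.mem s u)

/-- The induction claim. -/
def QQ (gr : ℤ → Submodule K V) (N : Module.End K V) (W : Submodule K V) : Prop :=
  ∃ (ι : Type) (_ : Fintype ι) (len : ι → ℕ) (top : ι → ℤ) (v : ι → V),
    (∀ s, v s ∈ gr (top s)) ∧ (∀ s, (N ^ (len s + 1)) (v s) = 0) ∧
    LinearIndependent K (fun p : Σ s : ι, Fin (len s + 1) => (N ^ (p.2 : ℕ)) (v p.1)) ∧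
    Submodule.span K (Set.range fun p : Σ s : ι, Fin (len s + 1) => (N ^ (p.2 : ℕ)) (v p.1)) = W

lemma QQ_bot (gr : ℤ → Submodule K V) (N : Module.End K V) : QQ gr N ⊥ := by
  refine ⟨Empty, inferInstance, fun e => e.elim, fun e => e.elim, fun e => e.elim, ?_, ?_, ?_, ?_⟩
  · intro e
    exact e.elim
  · intro e
    exact e.elim
  · exact linearIndependent_empty_type
  · rw [Set.range_eq_empty, Submodule.span_empty]

lemma QQ_all [Module.Finite K V] (h : DirectSum.IsInternal gr) (hπ : Proj gr π)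
    (hN : ∀ r, ∀ x ∈ gr r, N x ∈ gr (r - 2)) (W : Submodule K V)
    (hWN : ∀ x ∈ W, N x ∈ W) (hWg : ∀ x ∈ W, ∀ s, π s x ∈ W) : QQ gr N W := by
  classical
  induction W using WellFoundedLT.induction with
  | ind W ih =>
  by_cases hW : W = ⊥
  · rw [hW]
    exact QQ_bot gr N
  -- the maximal length
  have hWNp : ∀ i : ℕ, ∀ x ∈ W, (N ^ i) x ∈ W := by
    intro i
    induction i with
    | zero => intro x hx; simpa using hx
    | succ i ih =>
      intro x hx
      rw [pow_succ', Module.End.mul_apply]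
      exact hWN _ (ih x hx)
  have hex : ∃ k : ℕ, ∀ u ∈ W, (N ^ k) u = 0 := by
    obtain ⟨k, hk⟩ := exists_nilp h hπ hN
    exact ⟨k, fun u _ => hk u⟩
  obtain ⟨l, hl, hl'⟩ : ∃ l : ℕ, (∀ u ∈ W, (N ^ (l + 1)) u = 0) ∧ ∃ u ∈ W, (N ^ l) u ≠ 0 := by
    have h1 := Nat.find_spec hex
    have h2 : Nat.find hex ≠ 0 := by
      intro h0
      rw [h0] at h1
      apply hW
      rw [Submodule.eq_bot_iff]
      intro x hx
      simpa using h1 x hx
    obtain ⟨l, hl⟩ := Nat.exists_eq_succ_of_ne_zero h2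
    refine ⟨l, ?_, ?_⟩
    · rw [hl] at h1
      exact h1
    · have h3 := Nat.find_min hex (m := l) (by omega)
      push Not at h3
      exact h3
  obtain ⟨u0, hu0, hu0'⟩ := hl'
  obtain ⟨r, hr⟩ : ∃ r, (N ^ l) (π r u0) ≠ 0 := by
    by_contra hcon
    push Not at hcon
    obtain ⟨T, hT, -⟩ := hπ.sum u0
    apply hu0'
    rw [hT, map_sum]
    exact Finset.sum_eq_zero fun s _ => hcon s
  set v := π r u0 with hv
  have hvW : v ∈ W := hWg _ hu0 r
  have hvr : v ∈ gr r := hπ.mem r u0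
  have hw := pow_mem hN r l v hvr
  obtain ⟨ψ, hψ⟩ : ∃ ψ : V →ₗ[K] K, ψ ((N ^ l) v) = 1 := by
    have h1 : ∃ ψ : Module.Dual K V, ψ ((N ^ l) v) ≠ 0 := by
      by_contra hcon
      push Not at hcon
      exact hr ((Module.forall_dual_apply_eq_zero_iff K _).mp hcon)
    obtain ⟨ψ, hψ⟩ := h1
    refine ⟨(ψ ((N ^ l) v))⁻¹ • ψ, ?_⟩
    rw [LinearMap.smul_apply, smul_eq_mul, inv_mul_cancel₀ hψ]
  set φ : V →ₗ[K] K := ψ ∘ₗ π (r - 2 * l) with hφ
  have hφw : φ ((N ^ l) v) = 1 := by
    rw [hφ, LinearMap.comp_apply, hπ.same _ _ hw, hψ]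
  have hφ1 : ∀ j : ℕ, l < j → φ ((N ^ j) v) = 0 := by
    intro j hj
    obtain ⟨i, rfl⟩ := Nat.exists_eq_add_of_lt hj
    rw [show l + i + 1 = i + (l + 1) by ring, pow_add, Module.End.mul_apply, hl v hvW, map_zero,
      map_zero]
  let W' : Submodule K V :=
    { carrier := {u | u ∈ W ∧ ∀ i ≤ l, φ ((N ^ i) u) = 0}
      add_mem' := by
        rintro a b ⟨ha, ha'⟩ ⟨hb, hb'⟩
        refine ⟨W.add_mem ha hb, fun i hi => ?_⟩
        rw [map_add, map_add, ha' i hi, hb' i hi, add_zero]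
      zero_mem' := ⟨W.zero_mem, fun i _ => by rw [map_zero, map_zero]⟩
      smul_mem' := by
        rintro c a ⟨ha, ha'⟩
        refine ⟨W.smul_mem c ha, fun i hi => ?_⟩
        rw [map_smul, map_smul, ha' i hi, smul_zero] }
  have hW'mem : ∀ u, u ∈ W' ↔ u ∈ W ∧ ∀ i ≤ l, φ ((N ^ i) u) = 0 := fun _ => Iff.rfl
  have hW'le : W' ≤ W := fun u hu => hu.1
  have hW'lt : W' < W := by
    refine lt_of_le_of_ne hW'le ?_
    intro heq
    have h1 : v ∈ W' := by rw [heq]; exact hvW
    have h2 := h1.2 l le_rfl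
    rw [hφw] at h2
    exact one_ne_zero h2
  have hQ : QQ gr N W' := by
    apply ih W' hW'lt
    · intro x hx
      refine ⟨hWN _ hx.1, fun i hi => ?_⟩
      have h1 : (N ^ i) (N x) = (N ^ (i + 1)) x := by
        rw [pow_succ, Module.End.mul_apply]
      rw [h1]
      rcases Nat.lt_or_ge i l with h2 | h2
      · exact hx.2 (i + 1) (by omega)
      · have h3 : i = l := le_antisymm hi h2
        rw [h3, hl x hx.1, map_zero]
    · intro x hx s
      refine ⟨hWg _ hx.1 s, fun i hi => ?_⟩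
      rw [hπ.comm_pow hN, hφ, LinearMap.comp_apply]
      by_cases hs : s - 2 * (i : ℤ) = r - 2 * l
      · rw [hs, hπ.same _ _ (hπ.mem _ _)]
        exact hx.2 i hi
      · rw [hπ.ne _ _ _ (hπ.mem (s - 2 * i) ((N ^ i) x)) (Ne.symm hs), map_zero]
  obtain ⟨ι', hι', len', top', v', hv1, hv2, hv3, hv4⟩ := hQ
  -- coefficients vanish
  have hcoef : ∀ a : Fin (l + 1) → K, (∑ i, a i • (N ^ (i : ℕ)) v) ∈ W' → ∀ i, a i = 0 := by
    intro a ha
    have : ∀ n : ℕ, ∀ i : Fin (l + 1), (i : ℕ) = n → a i = 0 := by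
      intro n
      induction n using Nat.strong_induction_on with
      | _ n ihn =>
        intro i hi
        have h1 := ha.2 (l - i) (by omega)
        rw [map_sum, map_sum, Finset.sum_eq_single i] at h1
        · rw [map_smul, map_smul, ← Module.End.mul_apply, ← pow_add,
            show l - (i : ℕ) + i = l by omega, hφw, smul_eq_mul, mul_one] at h1
          exact h1
        · intro j _ hji
          rcases Nat.lt_or_ge (j : ℕ) i with h2 | h2
          · rw [ihn j (by omega) j rfl, zero_smul, map_zero, map_zero]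
          · have h3 : (i : ℕ) < j := lt_of_le_of_ne h2 (fun h => hji (Fin.ext h.symm))
            rw [map_smul, map_smul, ← Module.End.mul_apply, ← pow_add, hφ1 _ (by omega),
              smul_zero]
        · intro h
          exact absurd (Finset.mem_univ i) h
    exact fun i => this i i rfl
  -- decomposition
  have hdec : ∀ j : ℕ, ∀ u ∈ W, ∃ s ∈ Submodule.span K (Set.range fun i : Fin (l + 1) =>
      (N ^ (i : ℕ)) v), ∀ i ≤ l, l < i + j → φ ((N ^ i) (u - s)) = 0 := by
    intro j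
    induction j with
    | zero =>
      intro u _
      exact ⟨0, Submodule.zero_mem _, fun i hi hi' => absurd hi' (by omega)⟩
    | succ j ihj =>
      intro u hu
      obtain ⟨s, hs, hs'⟩ := ihj u hu
      by_cases hjl : j ≤ l
      · refine ⟨s + φ ((N ^ (l - j)) (u - s)) • (N ^ j) v, Submodule.add_mem _ hs
          (Submodule.smul_mem _ _ (Submodule.subset_span ⟨⟨j, by omega⟩, rfl⟩)), ?_⟩
        intro i hi hi'
        rw [← sub_sub, map_sub, map_sub, map_smul, map_smul, ← Module.End.mul_apply, ← pow_add]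
        rcases Nat.lt_or_ge l (i + j) with h2 | h2
        · rw [hs' i hi h2, hφ1 _ h2, smul_zero, sub_zero]
        · have h3 : i + j = l := by omega
          have h4 : i = l - j := by omega
          rw [h3, hφw, smul_eq_mul, mul_one, h4, sub_self]
      · exact ⟨s, hs, fun i hi hi' => hs' i hi (by omega)⟩
  refine ⟨Option ι', inferInstance, fun o => o.elim l len', fun o => o.elim r top',
    fun o => o.elim v v', ?_, ?_, ?_, ?_⟩
  · rintro (_ | s)
    · exact hvr
    · exact hv1 s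
  · rintro (_ | s)
    · exact hl v hvW
    · exact hv2 s
  · rw [Fintype.linearIndependent_iff] at hv3 ⊢
    intro g hg
    rw [Fintype.sum_sigma, Fintype.sum_option] at hg
    have hsecond : (∑ s : ι', ∑ i : Fin (len' s + 1), g ⟨some s, i⟩ • (N ^ (i : ℕ)) (v' s)) ∈
        W' := by
      refine Submodule.sum_mem _ fun s _ => Submodule.sum_mem _ fun i _ =>
        Submodule.smul_mem _ _ ?_
      rw [← hv4]
      exact Submodule.subset_span ⟨⟨s, i⟩, rfl⟩
    have hfirst : (∑ i : Fin (l + 1), g ⟨none, i⟩ • (N ^ (i : ℕ)) v) ∈ W' := by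
      have h1 : (∑ i : Fin (l + 1), g ⟨none, i⟩ • (N ^ (i : ℕ)) v) =
          -(∑ s : ι', ∑ i : Fin (len' s + 1), g ⟨some s, i⟩ • (N ^ (i : ℕ)) (v' s)) :=
        eq_neg_of_add_eq_zero_left hg
      rw [h1]
      exact Submodule.neg_mem _ hsecond
    have ha := hcoef _ hfirst
    have hg2 : (∑ s : ι', ∑ i : Fin (len' s + 1), g ⟨some s, i⟩ • (N ^ (i : ℕ)) (v' s)) = 0 := by
      have h1 : (∑ i : Fin (l + 1), g ⟨none, i⟩ • (N ^ (i : ℕ)) v) = 0 :=
        Finset.sum_eq_zero fun i _ => by rw [ha i, zero_smul]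
      have h2 : (∑ i : Fin (l + 1), g ⟨none, i⟩ • (N ^ (i : ℕ)) v) +
          (∑ s : ι', ∑ i : Fin (len' s + 1), g ⟨some s, i⟩ • (N ^ (i : ℕ)) (v' s)) = 0 := hg
      rwa [h1, zero_add] at h2
    rintro ⟨_ | s, i⟩
    · exact ha i
    · exact hv3 (fun p => g ⟨some p.1, p.2⟩) (by rw [Fintype.sum_sigma]; exact hg2) ⟨s, i⟩
  · apply le_antisymm
    · rw [Submodule.span_le]
      rintro _ ⟨⟨_ | s, i⟩, rfl⟩
      · exact hWNp _ _ hvW
      · apply hW'le
        rw [← hv4]
        exact Submodule.subset_span ⟨⟨s, i⟩, rfl⟩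
    · intro u hu
      obtain ⟨s, hs, hs'⟩ := hdec (l + 1) u hu
      have hsW : s ∈ W := by
        have : Submodule.span K (Set.range fun i : Fin (l + 1) => (N ^ (i : ℕ)) v) ≤ W := by
          rw [Submodule.span_le]
          rintro _ ⟨i, rfl⟩
          exact hWNp _ _ hvW
        exact this hs
      have h1 : u - s ∈ W' := ⟨W.sub_mem hu hsW, fun i hi => hs' i hi (by omega)⟩
      have h2 : u = s + (u - s) := by abel
      rw [h2]
      apply Submodule.add_mem
      · refine Submodule.span_mono ?_ hs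
        rintro _ ⟨i, rfl⟩
        exact ⟨⟨none, i⟩, rfl⟩
      · rw [← hv4] at h1
        refine Submodule.span_mono ?_ h1
        rintro _ ⟨⟨s, i⟩, rfl⟩
        exact ⟨⟨some s, i⟩, rfl⟩

end

theorem stA : StA.{u, v} := by
  intro K _ V _ _ _ gr N h hN
  obtain ⟨π, hπ⟩ := exists_proj gr h
  obtain ⟨ι, hι, len, top, v, h1, h2, h3, h4⟩ := QQ_all h hπ hN ⊤ (fun _ _ => trivial)
    (fun _ _ _ => trivial)
  exact ⟨{
    ι := ι
    fintype := hι
    len := len
    top := top
    b := Basis.mk h3 (by rw [h4])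
    mem := by
      intro s i
      rw [Basis.mk_apply]
      exact pow_mem hN _ _ _ (h1 s)
    succ := by
      intro s i
      rw [Basis.mk_apply, Basis.mk_apply]
      show N ((N ^ (i : ℕ)) (v s)) = (N ^ ((i : ℕ) + 1)) (v s)
      rw [pow_succ', Module.End.mul_apply]
    last := by
      intro s
      rw [Basis.mk_apply]
      show N ((N ^ (len s)) (v s)) = 0
      rw [← Module.End.mul_apply, ← pow_succ']
      exact h2 s }⟩

end Pool.Agent.Y153.MW
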